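import Mathlib

set_option autoImplicit false
set_option linter.all false

namespace Pool.Agent.L5helper39.SB

/-- Sidon set of natural numbers -/
def IsSidon (S : Set ℕ) : Prop :=
  ∀ a ∈ S, ∀ b ∈ S, ∀ c ∈ S, ∀ d ∈ S, a + b = c + d → (a = c ∧ b = d) ∨ (a = d ∧ b = c)

open Classical in
/-- the elements of `S` in `[a, b)` -/
noncomputable def E (S : Set ℕ) (a b : ℕ) : Finset ℕ := (Finset.Ico a b).filter (· ∈ S)

theorem mem_E (S : Set ℕ) (a b x : ℕ) : x ∈ E S a b ↔ (a ≤ x ∧ x < b) ∧ x ∈ S := by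
  classical
  simp [E]

theorem E_stack (S : Set ℕ) (a w c : ℕ) (q : ℕ)
    (h : ∀ j < q, c ≤ (E S (a + j * w) (a + (j + 1) * w)).card) :
    q * c ≤ (E S a (a + q * w)).card := by
  induction q with
  | zero => simp
  | succ q ih =>
    have h1 := ih (fun j hj => h j (by omega))
    have h2 := h q (by omega)
    have h3 : (E S a (a + q * w) ∪ E S (a + q * w) (a + (q + 1) * w)) ⊆ E S a (a + (q + 1) * w) := by
      intro x hx
      have hw : a + q * w ≤ a + (q + 1) * w := by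
        rw [add_mul]; omega
      rw [Finset.mem_union, mem_E, mem_E] at hx
      rw [mem_E]
      rcases hx with hx | hx
      · exact ⟨⟨hx.1.1, hx.1.2.trans_le hw⟩, hx.2⟩
      · exact ⟨⟨le_trans (Nat.le_add_right _ _) hx.1.1, hx.1.2⟩, hx.2⟩
    have h4 : Disjoint (E S a (a + q * w)) (E S (a + q * w) (a + (q + 1) * w)) := by
      rw [Finset.disjoint_left]
      intro x hx hx'
      rw [mem_E] at hx hx'
      omega
    have h5 := Finset.card_le_card h3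
    rw [Finset.card_union_of_disjoint h4] at h5
    rw [add_mul]
    omega

/-- a window all of whose central sums are covered has many elements -/
theorem window (S : Set ℕ) (u t p : ℕ)
    (hcov : ∀ m : ℕ, 3 * u ≤ m → m < 3 * u + (2 ^ p) ^ 3 →
      ∃ s₁ ∈ E S (u - t) (u + t), ∃ s₂ ∈ E S (u - t) (u + t), ∃ s₃ ∈ E S (u - t) (u + t),
        s₁ + s₂ + s₃ = m) :
    2 ^ p ≤ (E S (u - t) (u + t)).card := by
  classical
  set W := E S (u - t) (u + t) with hW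
  have h1 : Finset.Ico (3 * u) (3 * u + (2 ^ p) ^ 3) ⊆
      (W ×ˢ W ×ˢ W).image (fun x => x.1 + x.2.1 + x.2.2) := by
    intro m hm
    rw [Finset.mem_Ico] at hm
    obtain ⟨s₁, h₁, s₂, h₂, s₃, h₃, h⟩ := hcov m hm.1 hm.2
    rw [Finset.mem_image]
    exact ⟨(s₁, s₂, s₃), by simp [h₁, h₂, h₃], h⟩
  have h2 := (Finset.card_le_card h1).trans Finset.card_image_le
  rw [Nat.card_Ico, Finset.card_product, Finset.card_product] at h2
  have h3 : (2 ^ p) ^ 3 ≤ W.card ^ 3 := by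
    calc (2 ^ p) ^ 3 = 3 * u + (2 ^ p) ^ 3 - 3 * u := by omega
      _ ≤ _ := h2
      _ = W.card ^ 3 := by ring
  exact (Nat.pow_le_pow_iff_left (by norm_num)).1 h3

/-- counting differences -/
theorem pairs (S : Set ℕ) (hS : IsSidon S) (d : ℕ) (N : Finset ℕ)
    (hN : ∀ n ∈ N, d ≤ 4 * n) (t : ℕ → ℕ) (ht : ∀ n ∈ N, 2 ≤ t n)
    (hcard : ∀ n ∈ N, ∀ l < 2 ^ (4 * n - d),
      t n ≤ (E S (16 ^ n + l * 2 ^ d) (16 ^ n + (l + 1) * 2 ^ d)).card) :
    ∑ n ∈ N, 2 ^ (4 * n - d) * (t n * t n - t n) ≤ 2 ^ (d + 1) := by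
  classical
  let A : ℕ → ℕ → Finset ℕ := fun n l => E S (16 ^ n + l * 2 ^ d) (16 ^ n + (l + 1) * 2 ^ d)
  let I : Finset (ℕ × ℕ) := N.sigma (fun n => Finset.range (2 ^ (4 * n - d))) |>.image
    (fun x => (x.1, x.2))
  let P : Finset (Σ _ : (Σ _ : ℕ, ℕ), ℕ × ℕ) :=
    (N.sigma (fun n => Finset.range (2 ^ (4 * n - d)))).sigma (fun x => (A x.1 x.2).offDiag)
  have hP : ∑ n ∈ N, 2 ^ (4 * n - d) * (t n * t n - t n) ≤ P.card := by
    rw [Finset.card_sigma, Finset.sum_sigma]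
    refine Finset.sum_le_sum fun n hn => ?_
    have : ∀ l ∈ Finset.range (2 ^ (4 * n - d)), t n * t n - t n ≤ (A n l).offDiag.card := by
      intro l hl
      rw [Finset.mem_range] at hl
      rw [Finset.offDiag_card]
      have h1 := hcard n hn l hl
      have h2 := ht n hn
      have e1 : t n * t n - t n = t n * (t n - 1) := by rw [Nat.mul_sub_one]
      have e2 : (A n l).card * (A n l).card - (A n l).card = (A n l).card * ((A n l).card - 1) := by
        rw [Nat.mul_sub_one]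
      rw [e1, e2]
      exact Nat.mul_le_mul h1 (Nat.sub_le_sub_right h1 1)
    calc 2 ^ (4 * n - d) * (t n * t n - t n)
        = ∑ l ∈ Finset.range (2 ^ (4 * n - d)), (t n * t n - t n) := by simp
      _ ≤ ∑ l ∈ Finset.range (2 ^ (4 * n - d)), (A n l).offDiag.card := Finset.sum_le_sum this
  refine hP.trans ?_
  have hmem : ∀ x ∈ P, x.1.1 ∈ N ∧ x.1.2 < 2 ^ (4 * x.1.1 - d) ∧
      x.2.1 ∈ A x.1.1 x.1.2 ∧ x.2.2 ∈ A x.1.1 x.1.2 ∧ x.2.1 ≠ x.2.2 := by
    intro x hx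
    simp only [P, Finset.mem_sigma, Finset.mem_range, Finset.mem_offDiag] at hx
    exact ⟨hx.1.1, hx.1.2, hx.2.1, hx.2.2.1, hx.2.2.2⟩
  -- recover the window
  have hrec : ∀ n ∈ N, ∀ l < 2 ^ (4 * n - d), ∀ a ∈ A n l, Nat.log 16 a = n ∧
      (a - 16 ^ n) / 2 ^ d = l := by
    intro n hn l hl a ha
    rw [mem_E] at ha
    have h1 : (l + 1) * 2 ^ d ≤ 16 ^ n := by
      calc (l + 1) * 2 ^ d ≤ 2 ^ (4 * n - d) * 2 ^ d := Nat.mul_le_mul_right _ hl
        _ = 2 ^ (4 * n) := by rw [← pow_add]; congr 1; have := hN n hn; omega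
        _ = 16 ^ n := by rw [pow_mul]; norm_num
    have h2 : 16 ^ n ≤ a := le_trans (Nat.le_add_right _ _) ha.1.1
    have h3 : a < 16 ^ (n + 1) := by
      have : (0:ℕ) < 16 ^ n := by positivity
      rw [pow_succ]
      have := ha.1.2
      omega
    refine ⟨Nat.log_eq_of_pow_le_of_lt_pow h2 h3, ?_⟩
    rw [Nat.div_eq_iff (by positivity)]
    have h4 := ha.1.1
    have h5 := ha.1.2
    rw [add_mul] at h5
    constructor
    · rw [mul_comm] at *
      omega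
    · omega
  have hinj : Set.InjOn (fun x : (Σ _ : (Σ _ : ℕ, ℕ), ℕ × ℕ) => ((x.2.1 : ℤ) - x.2.2)) (P : Set _) := by
    intro x hx y hy he
    have hx' := hmem x hx
    have hy' := hmem y hy
    simp only at he
    have hsx1 := ((mem_E _ _ _ _).1 hx'.2.2.1).2
    have hsx2 := ((mem_E _ _ _ _).1 hx'.2.2.2.1).2
    have hsy1 := ((mem_E _ _ _ _).1 hy'.2.2.1).2
    have hsy2 := ((mem_E _ _ _ _).1 hy'.2.2.2.1).2
    have he' : x.2.1 + y.2.2 = y.2.1 + x.2.2 := by omega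
    have hab : x.2.1 = y.2.1 ∧ x.2.2 = y.2.2 := by
      rcases hS _ hsx1 _ hsy2 _ hsy1 _ hsx2 he' with h | h
      · exact ⟨h.1, h.2.symm⟩
      · exact absurd h.1 hx'.2.2.2.2
    have hrx := hrec _ hx'.1 _ hx'.2.1 _ hx'.2.2.1
    have hry := hrec _ hy'.1 _ hy'.2.1 _ hy'.2.2.1
    obtain ⟨⟨n, l⟩, a, b⟩ := x
    obtain ⟨⟨n', l'⟩, a', b'⟩ := y
    simp only at hab hrx hry
    obtain ⟨rfl, rfl⟩ := hab
    have e1 : n = n' := hrx.1.symm.trans hry.1
    subst e1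
    have e2 : l = l' := hrx.2.symm.trans hry.2
    subst e2
    rfl
  have hmaps : ∀ x ∈ P, ((x.2.1 : ℤ) - x.2.2) ∈ Finset.Ico (-(2:ℤ) ^ d) (2 ^ d) := by
    intro x hx
    have hx' := hmem x hx
    have h1 := (mem_E _ _ _ _).1 hx'.2.2.1
    have h2 := (mem_E _ _ _ _).1 hx'.2.2.2.1
    have h3 : (16 ^ x.1.1 + (x.1.2 + 1) * 2 ^ d) = (16 ^ x.1.1 + x.1.2 * 2 ^ d) + 2 ^ d := by ring
    rw [h3] at h1 h2
    rw [Finset.mem_Ico]
    have h4 : (2:ℤ) ^ d = ((2 ^ d : ℕ) : ℤ) := by push_cast; rfl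
    rw [h4]
    constructor <;> omega
  have := Finset.card_le_card_of_injOn _ hmaps hinj
  rw [Int.card_Ico] at this
  refine this.trans ?_
  have h4 : (2:ℤ) ^ d - -(2:ℤ) ^ d = ((2 ^ (d + 1) : ℕ) : ℤ) := by push_cast; ring
  rw [h4, Int.toNat_natCast]

end Pool.Agent.L5helper39.SB
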