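import Pool.Agent.L5helper39.SB.Base

set_option autoImplicit false
set_option linter.all false

namespace Pool.Agent.L5helper39.SB

/-- differences inside the windows `[l D, (l+1) D)` -/
theorem pairs' (S : Set ℕ) (hS : IsSidon S) (D : ℕ) (hD : 0 < D) (L : Finset ℕ) :
    ∑ l ∈ L, ((((E S (l * D) ((l + 1) * D)).card : ℝ)) ^ 2 - (E S (l * D) ((l + 1) * D)).card) ≤
      2 * D := by
  classical
  let A : ℕ → Finset ℕ := fun l => E S (l * D) ((l + 1) * D)
  let P : Finset (Σ _ : ℕ, ℕ × ℕ) := L.sigma (fun l => (A l).offDiag)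
  have hP : ∑ l ∈ L, ((((A l).card : ℝ)) ^ 2 - (A l).card) = (P.card : ℝ) := by
    rw [Finset.card_sigma]
    push_cast
    refine Finset.sum_congr rfl fun l _ => ?_
    rw [Finset.offDiag_card, Nat.cast_sub (Nat.le_mul_self _)]
    push_cast
    ring
  have hmem : ∀ x ∈ P, x.1 ∈ L ∧ x.2.1 ∈ A x.1 ∧ x.2.2 ∈ A x.1 ∧ x.2.1 ≠ x.2.2 := by
    intro x hx
    simp only [P, Finset.mem_sigma, Finset.mem_offDiag] at hx
    exact ⟨hx.1, hx.2.1, hx.2.2.1, hx.2.2.2⟩
  have hrec : ∀ l, ∀ a ∈ A l, a / D = l := by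
    intro l a ha
    rw [mem_E] at ha
    have h4 := ha.1.1
    have h5 := ha.1.2
    exact Nat.div_eq_of_lt_le h4 h5
  have hinj : Set.InjOn (fun x : (Σ _ : ℕ, ℕ × ℕ) => ((x.2.1 : ℤ) - x.2.2)) (P : Set _) := by
    intro x hx y hy he
    have hx' := hmem x hx
    have hy' := hmem y hy
    simp only at he
    have hsx1 := ((mem_E _ _ _ _).1 hx'.2.1).2
    have hsx2 := ((mem_E _ _ _ _).1 hx'.2.2.1).2
    have hsy1 := ((mem_E _ _ _ _).1 hy'.2.1).2
    have hsy2 := ((mem_E _ _ _ _).1 hy'.2.2.1).2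
    have he' : x.2.1 + y.2.2 = y.2.1 + x.2.2 := by omega
    have hab : x.2.1 = y.2.1 ∧ x.2.2 = y.2.2 := by
      rcases hS _ hsx1 _ hsy2 _ hsy1 _ hsx2 he' with h | h
      · exact ⟨h.1, h.2.symm⟩
      · exact absurd h.1 hx'.2.2.2
    have hrx := hrec _ _ hx'.2.1
    have hry := hrec _ _ hy'.2.1
    obtain ⟨l, a, b⟩ := x
    obtain ⟨l', a', b'⟩ := y
    simp only at hab hrx hry
    obtain ⟨rfl, rfl⟩ := hab
    have e2 : l = l' := hrx.symm.trans hry
    subst e2
    rfl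
  have hmaps : ∀ x ∈ P, ((x.2.1 : ℤ) - x.2.2) ∈ Finset.Ico (-(D:ℤ)) D := by
    intro x hx
    have hx' := hmem x hx
    have h1 := (mem_E _ _ _ _).1 hx'.2.1
    have h2 := (mem_E _ _ _ _).1 hx'.2.2.1
    rw [add_mul, one_mul] at h1 h2
    rw [Finset.mem_Ico]
    constructor <;> omega
  have := Finset.card_le_card_of_injOn _ hmaps hinj
  rw [Int.card_Ico] at this
  have h3 : P.card ≤ 2 * D := by omega
  rw [hP]
  exact_mod_cast h3

/-- the windows shifted by `e` -/
theorem shift_sum (S : Set ℕ) (v a b e : ℕ) (he : e ≤ 2) :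
    ∑ j ∈ Finset.Ico (a + 1) (b - 1), (E S ((j + e - 1) * v) ((j + e) * v)).card ≤
      (E S (a * v) (b * v)).card := by
  classical
  rw [← Finset.card_biUnion]
  · apply Finset.card_le_card
    intro x hx
    rw [Finset.mem_biUnion] at hx
    obtain ⟨j, hj, hx⟩ := hx
    rw [Finset.mem_Ico] at hj
    rw [mem_E] at hx ⊢
    refine ⟨⟨?_, ?_⟩, hx.2⟩
    · exact le_trans (Nat.mul_le_mul_right _ (by omega)) hx.1.1
    · exact lt_of_lt_of_le hx.1.2 (Nat.mul_le_mul_right _ (by omega))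
  · intro i hi j hj hij
    rw [Function.onFun, Finset.disjoint_left]
    intro x hx hx'
    rw [mem_E] at hx hx'
    rw [Finset.coe_Ico, Set.mem_Ico] at hi hj
    apply hij
    have h1 : x / v = i + e - 1 := by
      apply Nat.div_eq_of_lt_le hx.1.1
      rw [show i + e - 1 + 1 = i + e by omega]
      exact hx.1.2
    have h2 : x / v = j + e - 1 := by
      apply Nat.div_eq_of_lt_le hx'.1.1
      rw [show j + e - 1 + 1 = j + e by omega]
      exact hx'.1.2
    omega

/-- few sums when there are few elements -/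
theorem good_count (S : Set ℕ) (v y a b : ℕ) (hv : 0 < v) (hy : 3 * v ≤ y ^ 3) (G : Finset ℕ)
    (hG : ∀ m ∈ G, 3 * (a + 1) * v ≤ m ∧ m < 3 * (b - 1) * v ∧
      ∃ s₁ ∈ S, ∃ s₂ ∈ S, ∃ s₃ ∈ S, s₁ + s₂ + s₃ = m ∧
        |(s₁ : ℝ) - m / 3| ≤ v ∧ |(s₂ : ℝ) - m / 3| ≤ v ∧ |(s₃ : ℝ) - m / 3| ≤ v) :
    G.card ≤ 3 * y ^ 2 * (E S (a * v) (b * v)).card := by
  classical
  have hmaps : ∀ m ∈ G, m / (3 * v) ∈ Finset.Ico (a + 1) (b - 1) := by
    intro m hm
    obtain ⟨h1, h2, -⟩ := hG m hm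
    rw [Finset.mem_Ico]
    constructor
    · rw [Nat.le_div_iff_mul_le (by omega)]
      calc (a + 1) * (3 * v) = 3 * (a + 1) * v := by ring
        _ ≤ m := h1
    · rw [Nat.div_lt_iff_lt_mul (by omega)]
      calc m < 3 * (b - 1) * v := h2
        _ = (b - 1) * (3 * v) := by ring
  rw [Finset.card_eq_sum_card_fiberwise hmaps]
  let k : ℕ → ℕ → ℕ := fun e j => (E S ((j + e - 1) * v) ((j + e) * v)).card
  have hfib : ∀ j ∈ Finset.Ico (a + 1) (b - 1), (G.filter (fun m => m / (3 * v) = j)).card ≤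
      y ^ 2 * (k 0 j + k 1 j + k 2 j) := by
    intro j hj
    rw [Finset.mem_Ico] at hj
    set W := E S ((j + 0 - 1) * v) ((j + 0) * v) ∪ E S ((j + 1 - 1) * v) ((j + 1) * v) ∪
      E S ((j + 2 - 1) * v) ((j + 2) * v) with hW
    have hWc : W.card ≤ k 0 j + k 1 j + k 2 j :=
      (Finset.card_union_le _ _).trans (Nat.add_le_add_right (Finset.card_union_le _ _) _)
    have h1 : (G.filter (fun m => m / (3 * v) = j)) ⊆
        (W ×ˢ W ×ˢ W).image (fun x => x.1 + x.2.1 + x.2.2) := by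
      intro m hm
      rw [Finset.mem_filter] at hm
      obtain ⟨hm, hmj⟩ := hm
      obtain ⟨-, -, s₁, h₁, s₂, h₂, s₃, h₃, hs, a₁, a₂, a₃⟩ := hG m hm
      have hm1 : j * (3 * v) ≤ m := by rw [← hmj]; exact Nat.div_mul_le_self _ _
      have hm2 : m < (j + 1) * (3 * v) := by
        have := Nat.lt_div_mul_add (a := m) (b := 3 * v) (by omega)
        rw [← hmj, add_mul, one_mul]
        exact this
      have key : ∀ s : ℕ, s ∈ S → |(s : ℝ) - m / 3| ≤ v → s ∈ W := by
        intro s hs hsm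
        rw [abs_le] at hsm
        have hm1' : (j : ℝ) * (3 * v) ≤ m := by exact_mod_cast hm1
        have hm2' : (m : ℝ) < (j + 1) * (3 * v) := by exact_mod_cast hm2
        have h5 : ((j * v : ℕ) : ℝ) ≤ ((s + v : ℕ) : ℝ) := by
          push_cast; nlinarith [hsm.1]
        have h6 : (s : ℝ) < (((j + 2) * v : ℕ) : ℝ) := by
          push_cast; nlinarith [hsm.2]
        have h5' : j * v ≤ s + v := by exact_mod_cast h5
        have h6' : s < (j + 2) * v := by exact_mod_cast h6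
        rw [hW, Finset.mem_union, Finset.mem_union, mem_E, mem_E, mem_E]
        obtain ⟨j', hj'⟩ : ∃ j', j = j' + 1 := ⟨j - 1, by omega⟩
        have f0 : j + 0 - 1 = j' := by omega
        have f0' : j + 0 = j' + 1 := by omega
        have f1 : j + 1 - 1 = j' + 1 := by omega
        have f1' : j + 1 = j' + 2 := by omega
        have f2 : j + 2 - 1 = j' + 2 := by omega
        have f2' : j + 2 = j' + 3 := by omega
        rw [f2'] at h6'
        rw [hj'] at h5'
        rw [f0, f0', f1, f1', f2, f2']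
        have e1 : (j' + 1) * v = j' * v + v := by ring
        have e2 : (j' + 2) * v = j' * v + v + v := by ring
        have e3 : (j' + 3) * v = j' * v + v + v + v := by ring
        rw [e1] at h5'
        rw [e3] at h6'
        rw [e1, e2, e3]
        by_cases c1 : s < j' * v + v
        · exact Or.inl (Or.inl ⟨⟨by omega, c1⟩, hs⟩)
        · by_cases c2 : s < j' * v + v + v
          · exact Or.inl (Or.inr ⟨⟨by omega, c2⟩, hs⟩)
          · exact Or.inr ⟨⟨by omega, by omega⟩, hs⟩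
      rw [Finset.mem_image]
      exact ⟨(s₁, s₂, s₃), by simp [key s₁ h₁ a₁, key s₂ h₂ a₂, key s₃ h₃ a₃], hs⟩
    have h2 : (G.filter (fun m => m / (3 * v) = j)).card ≤ W.card ^ 3 := by
      refine ((Finset.card_le_card h1).trans Finset.card_image_le).trans (le_of_eq ?_)
      rw [Finset.card_product, Finset.card_product]; ring
    have h3 : (G.filter (fun m => m / (3 * v) = j)).card ≤ y ^ 3 := by
      refine le_trans ?_ hy
      have : (G.filter (fun m => m / (3 * v) = j)) ⊆ Finset.Ico (j * (3 * v)) (j * (3 * v) + 3 * v) := by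
        intro m hm
        rw [Finset.mem_filter] at hm
        obtain ⟨hm, hmj⟩ := hm
        rw [Finset.mem_Ico, ← hmj]
        exact ⟨Nat.div_mul_le_self _ _, Nat.lt_div_mul_add (by omega)⟩
      have := Finset.card_le_card this
      rw [Nat.card_Ico] at this
      omega
    have h4 : (G.filter (fun m => m / (3 * v) = j)).card ≤ y ^ 2 * W.card := by
      rcases le_total W.card y with h | h
      · calc _ ≤ W.card ^ 3 := h2
          _ = W.card ^ 2 * W.card := by ring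
          _ ≤ y ^ 2 * W.card := Nat.mul_le_mul_right _ (Nat.pow_le_pow_left h 2)
      · calc _ ≤ y ^ 3 := h3
          _ = y ^ 2 * y := by ring
          _ ≤ y ^ 2 * W.card := Nat.mul_le_mul_left _ h
    exact h4.trans (Nat.mul_le_mul_left _ hWc)
  refine (Finset.sum_le_sum hfib).trans ?_
  rw [← Finset.mul_sum, Finset.sum_add_distrib, Finset.sum_add_distrib]
  have s0 := shift_sum S v a b 0 (by omega)
  have s1 := shift_sum S v a b 1 (by omega)
  have s2 := shift_sum S v a b 2 (by omega)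
  calc y ^ 2 * (∑ j ∈ Finset.Ico (a + 1) (b - 1), k 0 j + ∑ j ∈ Finset.Ico (a + 1) (b - 1), k 1 j +
        ∑ j ∈ Finset.Ico (a + 1) (b - 1), k 2 j)
      ≤ y ^ 2 * ((E S (a * v) (b * v)).card + (E S (a * v) (b * v)).card +
        (E S (a * v) (b * v)).card) :=
        Nat.mul_le_mul_left _ (Nat.add_le_add (Nat.add_le_add s0 s1) s2)
    _ = _ := by ring

/-- one scale: many elements in `[2 ^ α, 2 ^ β)` give many close pairs -/
theorem scale (S : Set ℕ) (d α β τ : ℕ) (hα : d ≤ α) (hαβ : α ≤ β) (hτ : β + 1 ≤ d + τ)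
    (hT : (2:ℝ) ^ τ ≤ (E S (2 ^ α) (2 ^ β)).card) :
    (2:ℝ) ^ (2 * τ + d - β - 1) ≤ ∑ l ∈ Finset.Ico (2 ^ (α - d)) (2 ^ (β - d)),
      ((((E S (l * 2 ^ d) ((l + 1) * 2 ^ d)).card : ℝ)) ^ 2 -
        (E S (l * 2 ^ d) ((l + 1) * 2 ^ d)).card) := by
  classical
  set L := Finset.Ico (2 ^ (α - d)) (2 ^ (β - d)) with hL
  set t : ℕ → ℝ := fun l => ((E S (l * 2 ^ d) ((l + 1) * 2 ^ d)).card : ℝ) with ht
  set T : ℝ := ∑ l ∈ L, t l with hTdef
  have h1 : ((E S (2 ^ α) (2 ^ β)).card : ℝ) ≤ T := by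
    have hsub : E S (2 ^ α) (2 ^ β) ⊆ L.biUnion (fun l => E S (l * 2 ^ d) ((l + 1) * 2 ^ d)) := by
      intro x hx
      rw [mem_E] at hx
      rw [Finset.mem_biUnion]
      refine ⟨x / 2 ^ d, ?_, ?_⟩
      · rw [hL, Finset.mem_Ico]
        constructor
        · rw [Nat.le_div_iff_mul_le (by positivity), ← pow_add, Nat.sub_add_cancel hα]
          exact hx.1.1
        · rw [Nat.div_lt_iff_lt_mul (by positivity), ← pow_add, Nat.sub_add_cancel (hα.trans hαβ)]
          exact hx.1.2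
      · rw [mem_E]
        refine ⟨⟨Nat.div_mul_le_self _ _, ?_⟩, hx.2⟩
        rw [add_mul, one_mul]
        exact Nat.lt_div_mul_add (by positivity)
    have := (Finset.card_le_card hsub).trans Finset.card_biUnion_le
    simp only [hTdef, ht]
    exact_mod_cast this
  have hcard : (L.card : ℝ) ≤ 2 ^ (β - d) := by
    rw [hL, Nat.card_Ico]
    have : 2 ^ (β - d) - 2 ^ (α - d) ≤ 2 ^ (β - d) := Nat.sub_le _ _
    exact_mod_cast this
  have hcs : T ^ 2 ≤ L.card * ∑ l ∈ L, t l ^ 2 := sq_sum_le_card_mul_sum_sq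
  set Q : ℝ := ∑ l ∈ L, t l ^ 2 with hQ
  have hQ0 : 0 ≤ Q := Finset.sum_nonneg fun l _ => sq_nonneg _
  have hcs2 : T ^ 2 ≤ 2 ^ (β - d) * Q := hcs.trans (mul_le_mul_of_nonneg_right hcard hQ0)
  have hT1 : (2:ℝ) ^ τ ≤ T := hT.trans h1
  have hT0 : 0 < T := lt_of_lt_of_le (by positivity) hT1
  rw [Finset.sum_sub_distrib]
  change (2:ℝ) ^ (2 * τ + d - β - 1) ≤ Q - T
  have hp : (0:ℝ) < 2 ^ (β - d) := by positivity
  have h2 : (2:ℝ) ^ (β - d) * 2 ≤ T := by
    refine le_trans ?_ hT1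
    rw [← pow_succ]
    exact pow_le_pow_right₀ (by norm_num) (by omega)
  -- `Q ≥ 2 T`
  have h3 : 2 * T ≤ Q := by
    by_contra hcon
    rw [not_le] at hcon
    have : (2:ℝ) ^ (β - d) * Q < 2 ^ (β - d) * (2 * T) := mul_lt_mul_of_pos_left hcon hp
    nlinarith
  have h4 : (2:ℝ) ^ (2 * τ + d - β - 1) * 2 ≤ Q := by
    have h5 : (2:ℝ) ^ (2 * τ + d - β - 1) * 2 * 2 ^ (β - d) = 2 ^ τ * 2 ^ τ := by
      rw [← pow_succ, ← pow_add, ← pow_add]
      congr 1
      omega
    have h6 : (2:ℝ) ^ τ * 2 ^ τ ≤ T ^ 2 := by nlinarith [pow_pos (show (0:ℝ) < 2 by norm_num) τ]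
    by_contra hcon
    rw [not_le] at hcon
    have : Q * 2 ^ (β - d) < (2:ℝ) ^ (2 * τ + d - β - 1) * 2 * 2 ^ (β - d) :=
      mul_lt_mul_of_pos_right hcon hp
    nlinarith
  linarith

end Pool.Agent.L5helper39.SB
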