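import Pool.Agent.L5helper39.SB.Dens

set_option autoImplicit false
set_option linter.all false

open Filter

namespace Pool.Agent.L5helper39.SB

def NearR (S : Set ℕ) (m : ℕ) (R : ℝ) : Prop :=
  ∃ s₁ ∈ S, ∃ s₂ ∈ S, ∃ s₃ ∈ S, s₁ + s₂ + s₃ = m ∧
    |(s₁ : ℝ) - m / 3| ≤ R ∧ |(s₂ : ℝ) - m / 3| ≤ R ∧ |(s₃ : ℝ) - m / 3| ≤ R

theorem NearR.mono {S : Set ℕ} {m : ℕ} {R R' : ℝ} (h : NearR S m R) (hR : R ≤ R') :
    NearR S m R' := by
  obtain ⟨s₁, h₁, s₂, h₂, s₃, h₃, h, a, b, c⟩ := h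
  exact ⟨s₁, h₁, s₂, h₂, s₃, h₃, h, a.trans hR, b.trans hR, c.trans hR⟩

theorem rbound (A k m : ℕ) (hm : (m : ℝ) * Real.log m ≤ 2 ^ (4 * A + k)) (hm1 : 1 ≤ m) :
    ((m : ℝ) * Real.log m) ^ (3 / 4 : ℝ) / 2 ^ k ≤ (2 : ℝ) ^ (3 * A) := by
  have hm0 : (0 : ℝ) < m := by exact_mod_cast hm1
  have hlog0 : 0 ≤ Real.log m := Real.log_nonneg (by exact_mod_cast hm1)
  have h2 : ((m : ℝ) * Real.log m) ^ (3 / 4 : ℝ) ≤ ((2 : ℝ) ^ (4 * A + k)) ^ (3 / 4 : ℝ) :=
    Real.rpow_le_rpow (mul_nonneg hm0.le hlog0) hm (by norm_num)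
  have h3 : ((2 : ℝ) ^ (4 * A + k)) ^ (3 / 4 : ℝ) ≤ (2 : ℝ) ^ (3 * A + k) := by
    rw [← Real.rpow_natCast, ← Real.rpow_natCast, ← Real.rpow_mul (by norm_num)]
    apply Real.rpow_le_rpow_of_exponent_le (by norm_num)
    push_cast
    have : (0:ℝ) ≤ k := by positivity
    linarith
  rw [div_le_iff₀ (by positivity), ← pow_add]
  exact h2.trans h3

theorem logbound (K r n f e m : ℕ) (hK : 1 ≤ K) (hr : r = 2 ^ (4 * f + 12 + 2 * e))
    (hn : n ≤ 4 * r) (hm : m < 2 ^ (4 * (K * n) + 4 * K + 2)) (hm1 : 1 ≤ m) :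
    (m : ℝ) * Real.log m ≤ 2 ^ (4 * (K * n + f) + (5 * K + 18 + 2 * e)) := by
  have hm0 : (0 : ℝ) < m := by exact_mod_cast hm1
  have hmr : (m : ℝ) ≤ 2 ^ (4 * (K * n) + 4 * K + 2) := by exact_mod_cast hm.le
  have hr1 : (1:ℝ) ≤ r := by
    rw [hr]; push_cast; exact one_le_pow₀ (by norm_num)
  have hK1 : (1:ℝ) ≤ K := by exact_mod_cast hK
  have hlog0 : 0 ≤ Real.log m := Real.log_nonneg (by exact_mod_cast hm1)
  have hlog : Real.log m ≤ 16 * (K * r) := by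
    have h1 : Real.log m ≤ Real.log (2 ^ (4 * (K * n) + 4 * K + 2)) := Real.log_le_log hm0 hmr
    rw [Real.log_pow] at h1
    have h2 := Real.log_two_lt_d9
    have h3 : ((4 * (K * n) + 4 * K + 2 : ℕ) : ℝ) ≤ 16 * (K * r) + 4 * K + 2 := by
      have h : (n : ℝ) ≤ 4 * r := by exact_mod_cast hn
      have h' : (K : ℝ) * n ≤ K * (4 * r) := mul_le_mul_of_nonneg_left h (by linarith)
      push_cast; linarith
    have h4 : Real.log 2 > 0 := Real.log_pos (by norm_num)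
    have h5 : ((4 * (K * n) + 4 * K + 2 : ℕ) : ℝ) * Real.log 2 ≤
        (16 * (K * r) + 4 * K + 2) * 0.6931471808 := by
      apply mul_le_mul h3 h2.le h4.le
      positivity
    have h6 : (K : ℝ) ≤ K * r := by nlinarith
    nlinarith
  have hK2 : (K : ℝ) ≤ 2 ^ K := by exact_mod_cast Nat.lt_two_pow_self.le
  have hrr : (r : ℝ) = 2 ^ (4 * f + 12 + 2 * e) := by rw [hr]; push_cast; rfl
  calc (m : ℝ) * Real.log m ≤ 2 ^ (4 * (K * n) + 4 * K + 2) * (16 * (K * r)) :=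
        mul_le_mul hmr hlog hlog0 (by positivity)
    _ ≤ 2 ^ (4 * (K * n) + 4 * K + 2) * (2 ^ 4 * (2 ^ K * 2 ^ (4 * f + 12 + 2 * e))) := by
        rw [← hrr]
        apply mul_le_mul_of_nonneg_left _ (by positivity)
        have : (K : ℝ) * r ≤ 2 ^ K * r := mul_le_mul_of_nonneg_right hK2 (by linarith)
        linarith
    _ = _ := by
        rw [← pow_add, ← pow_add, ← pow_add]
        congr 1
        ring

theorem density (e : ℕ) (S : Set ℕ) (hS : IsSidon S) (m₀ : ℕ) :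
    ∃ x : ℕ, m₀ ≤ x ∧
      ({m : ℕ | m < x ∧ NearR S m (((m : ℝ) * Real.log m) ^ (3 / 4 : ℝ) / 2 ^ (7 * e + 23))}.ncard : ℝ)
        ≤ x / 2 ^ e := by
  classical
  by_contra hcon
  push Not at hcon
  obtain ⟨K, hK⟩ : ∃ K : ℕ, K = e + 1 := ⟨_, rfl⟩
  obtain ⟨f, hf1, hfm⟩ : ∃ f : ℕ, 1 ≤ f ∧ m₀ ≤ f := ⟨m₀ + 1, by omega, by omega⟩
  obtain ⟨r, hr⟩ : ∃ r : ℕ, r = 2 ^ (4 * f + 12 + 2 * e) := ⟨_, rfl⟩
  have hrf : 4 * f + 12 + 2 * e < r := by
    rw [hr]; exact Nat.lt_two_pow_self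
  have hKr : r ≤ K * r := Nat.le_mul_of_pos_left _ (by omega)
  have hKf : f ≤ K * f := Nat.le_mul_of_pos_left _ (by omega)
  set d : ℕ := 12 * (K * r) with hd
  -- each scale
  have hsc : ∀ n ∈ Finset.Icc (3 * r) (4 * r - f), (2:ℝ) ^ (d - 4 * f - 2 * e - 9) ≤
      ∑ l ∈ Finset.Ico (2 ^ (4 * (K * n) - d)) (2 ^ (4 * (K * n) + 4 * K - d)),
      ((((E S (l * 2 ^ d) ((l + 1) * 2 ^ d)).card : ℝ)) ^ 2 -
        (E S (l * 2 ^ d) ((l + 1) * 2 ^ d)).card) := by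
    intro n hn
    rw [Finset.mem_Icc] at hn
    have hKn1 : 3 * (K * r) ≤ K * n := by
      calc 3 * (K * r) = K * (3 * r) := by ring
        _ ≤ K * n := Nat.mul_le_mul_left _ hn.1
    have hKn2 : K * n + K * f ≤ 4 * (K * r) := by
      calc K * n + K * f = K * (n + f) := by ring
        _ ≤ K * (4 * r) := Nat.mul_le_mul_left _ (by omega)
        _ = _ := by ring
    obtain ⟨P, hP⟩ : ∃ P : ℕ, P = K * n := ⟨_, rfl⟩
    rw [← hP] at hKn1 hKn2 ⊢
    set v : ℕ := 2 ^ (3 * P + 3 * f) with hv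
    set y : ℕ := 2 ^ (P + f + 1) with hy
    set a : ℕ := 2 ^ (P - 3 * f) with ha
    set b : ℕ := 2 ^ (P + 4 * K - 3 * f) with hb
    have hP3 : 3 * f + 2 ≤ P := by omega
    have hav : a * v = 2 ^ (4 * P) := by rw [ha, hv, ← pow_add]; congr 1; omega
    have hbv : b * v = 2 ^ (4 * P + 4 * K) := by rw [hb, hv, ← pow_add]; congr 1; omega
    have hv0 : 0 < v := by positivity
    have hy3 : 3 * v ≤ y ^ 3 := by
      have : y ^ 3 = 8 * v := by rw [hy, hv]; ring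
      omega
    have ha1 : 1 ≤ a := Nat.one_le_two_pow
    have hb3 : 3 ≤ b := by
      have : 2 ^ 2 ≤ b := Nat.pow_le_pow_right (by norm_num) (by omega)
      omega
    set x : ℕ := 3 * (b - 1) * v with hx
    have hxb : x + 3 * v = 3 * 2 ^ (4 * P + 4 * K) := by
      rw [hx, ← hbv]
      obtain ⟨b', hb'⟩ : ∃ b', b = b' + 1 := ⟨b - 1, by omega⟩
      rw [hb', Nat.add_sub_cancel]; ring
    have h3v : 3 * v ≤ 2 ^ (4 * P + 4 * K) := by
      rw [← hbv]; exact Nat.mul_le_mul_right _ hb3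
    have hx2 : 2 * 2 ^ (4 * P + 4 * K) ≤ x := by omega
    have hxm : m₀ ≤ x := by
      have h1 : 4 * P + 4 * K < 2 ^ (4 * P + 4 * K) := Nat.lt_two_pow_self
      omega
    have h1 := hcon x hxm
    let g : ℕ → ℝ := fun m => ((m : ℝ) * Real.log m) ^ (3 / 4 : ℝ) / 2 ^ (7 * e + 23)
    let G : Finset ℕ := (Finset.Ico (3 * (a + 1) * v) x).filter (fun m => NearR S m (g m))
    have hG := good_count S v y a b hv0 hy3 G (by
      intro m hm
      rw [Finset.mem_filter, Finset.mem_Ico] at hm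
      obtain ⟨⟨hm1, hm2⟩, hm3⟩ := hm
      refine ⟨hm1, hm2, ?_⟩
      have hmpos : 1 ≤ m := by
        have : 1 ≤ 3 * (a + 1) * v := Nat.mul_pos (by omega) hv0
        omega
      have hmlt : m < 2 ^ (4 * (K * n) + 4 * K + 2) := by
        rw [← hP, pow_add _ _ 2]; omega
      have hb1 := logbound K r n f e m (by omega) hr (by omega) hmlt hmpos
      have hb2 := rbound (K * n + f) (5 * K + 18 + 2 * e) m hb1 hmpos
      have e1 : 5 * K + 18 + 2 * e = 7 * e + 23 := by omega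
      have e2 : (2 : ℝ) ^ (3 * (K * n + f)) = (v : ℝ) := by
        rw [hv, ← hP]; push_cast; congr 1; ring
      rw [e1, e2] at hb2
      exact hm3.mono hb2)
    rw [hav, hbv] at hG
    -- lower bound for `G`
    have hcount : {m : ℕ | m < x ∧ NearR S m (g m)}.ncard ≤ 3 * (a + 1) * v + G.card := by
      have hsub : {m : ℕ | m < x ∧ NearR S m (g m)} ⊆
          ((Finset.range (3 * (a + 1) * v) ∪ G : Finset ℕ) : Set ℕ) := by
        intro m hm
        rw [Finset.mem_coe, Finset.mem_union, Finset.mem_range, Finset.mem_filter, Finset.mem_Ico]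
        by_cases hlt : m < 3 * (a + 1) * v
        · exact Or.inl hlt
        · exact Or.inr ⟨⟨not_lt.1 hlt, hm.1⟩, hm.2⟩
      have h2 := Set.ncard_le_ncard hsub (Finset.finite_toSet _)
      rw [Set.ncard_coe_finset] at h2
      refine (h2.trans (Finset.card_union_le _ _)).trans ?_
      rw [Finset.card_range]
    have hcountR : ({m : ℕ | m < x ∧ NearR S m (g m)}.ncard : ℝ) ≤ 3 * (a + 1) * v + G.card := by
      exact_mod_cast hcount
    have h6 : ((3 * (a + 1) * v : ℕ) : ℝ) ≤ 6 * 2 ^ (4 * P) := by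
      have : 3 * (a + 1) * v ≤ 6 * 2 ^ (4 * P) := by
        rw [← hav]
        calc 3 * (a + 1) * v ≤ (6 * a) * v := Nat.mul_le_mul_right _ (by omega)
          _ = _ := by ring
      exact_mod_cast this
    have hxR : (2:ℝ) * 2 ^ (4 * P + 4 * K) ≤ x := by exact_mod_cast hx2
    have hxe : (2:ℝ) * 2 ^ (4 * P + 4 * K - e) ≤ x / 2 ^ e := by
      rw [le_div_iff₀ (by positivity), mul_assoc, ← pow_add, Nat.sub_add_cancel (by omega)]
      exact hxR
    have h7 : (6:ℝ) * 2 ^ (4 * P) ≤ 2 ^ (4 * P + 4 * K - e) := by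
      have : (2:ℝ) ^ (4 * P + 4) ≤ 2 ^ (4 * P + 4 * K - e) :=
        pow_le_pow_right₀ (by norm_num) (by omega)
      rw [pow_add] at this
      have h0 : (0:ℝ) < 2 ^ (4 * P) := by positivity
      nlinarith
    have hGlow : (2:ℝ) ^ (4 * P + 4 * K - e) ≤ G.card := by
      push_cast at h6
      have := h1
      linarith
    have hGR : (G.card : ℝ) ≤ 3 * y ^ 2 * (E S (2 ^ (4 * P)) (2 ^ (4 * P + 4 * K))).card := by
      exact_mod_cast hG
    set T : ℝ := ((E S (2 ^ (4 * P)) (2 ^ (4 * P + 4 * K))).card : ℝ) with hT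
    have hT0 : 0 ≤ T := by positivity
    have hy2 : (3:ℝ) * y ^ 2 ≤ 2 ^ (2 * P + 2 * f + 4) := by
      rw [hy]; push_cast
      have : ((2:ℝ) ^ (P + f + 1)) ^ 2 = 2 ^ (2 * P + 2 * f + 2) := by
        rw [← pow_mul]; congr 1; ring
      have h44 : (2:ℝ) ^ (2 * P + 2 * f + 4) = 4 * 2 ^ (2 * P + 2 * f + 2) := by ring
      rw [this, h44]
      have h0 : (0:ℝ) < 2 ^ (2 * P + 2 * f + 2) := by positivity
      linarith
    have hTlow : (2:ℝ) ^ (4 * K + 2 * P - e - 2 * f - 4) ≤ T := by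
      have h8 : (2:ℝ) ^ (4 * P + 4 * K - e) ≤ 2 ^ (2 * P + 2 * f + 4) * T :=
        hGlow.trans (hGR.trans (mul_le_mul_of_nonneg_right hy2 hT0))
      have h9 : (2:ℝ) ^ (4 * P + 4 * K - e) =
          2 ^ (2 * P + 2 * f + 4) * 2 ^ (4 * K + 2 * P - e - 2 * f - 4) := by
        rw [← pow_add]; congr 1; omega
      rw [h9] at h8
      exact le_of_mul_le_mul_left h8 (by positivity)
    have hres := scale S d (4 * P) (4 * P + 4 * K) (4 * K + 2 * P - e - 2 * f - 4)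
      (by omega) (by omega) (by omega) hTlow
    refine le_trans ?_ hres
    exact pow_le_pow_right₀ (by norm_num) (by omega)
  -- sum over the scales
  set h : ℕ → ℝ := fun l => ((((E S (l * 2 ^ d) ((l + 1) * 2 ^ d)).card : ℝ)) ^ 2 -
        (E S (l * 2 ^ d) ((l + 1) * 2 ^ d)).card) with hh
  have hdisj : (↑(Finset.Icc (3 * r) (4 * r - f)) : Set ℕ).PairwiseDisjoint
      (fun n => Finset.Ico (2 ^ (4 * (K * n) - d)) (2 ^ (4 * (K * n) + 4 * K - d))) := by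
    have key : ∀ i j : ℕ, 3 * r ≤ i → i < j → ∀ z, z < 2 ^ (4 * (K * i) + 4 * K - d) →
        2 ^ (4 * (K * j) - d) ≤ z → False := by
      intro i j hi hij z h1 h2
      have : 4 * (K * i) + 4 * K ≤ 4 * (K * j) := by
        calc 4 * (K * i) + 4 * K = 4 * (K * (i + 1)) := by ring
          _ ≤ 4 * (K * j) := Nat.mul_le_mul_left _ (Nat.mul_le_mul_left _ hij)
      have h3 : 2 ^ (4 * (K * i) + 4 * K - d) ≤ 2 ^ (4 * (K * j) - d) :=
        Nat.pow_le_pow_right (by norm_num) (by omega)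
      omega
    intro i hi j hj hij
    rw [Finset.mem_coe, Finset.mem_Icc] at hi hj
    rw [Function.onFun, Finset.disjoint_left]
    intro z hz hz'
    rw [Finset.mem_Ico] at hz hz'
    rcases lt_or_gt_of_ne hij with hlt | hlt
    · exact key i j hi.1 hlt z hz.2 hz'.1
    · exact key j i hj.1 hlt z hz'.2 hz.1
  have hsum := Finset.sum_le_sum hsc
  rw [Finset.sum_const, Nat.card_Icc, nsmul_eq_mul] at hsum
  have hbi : ∑ n ∈ Finset.Icc (3 * r) (4 * r - f),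
      ∑ l ∈ Finset.Ico (2 ^ (4 * (K * n) - d)) (2 ^ (4 * (K * n) + 4 * K - d)), h l ≤ 2 * 2 ^ d := by
    rw [← Finset.sum_biUnion hdisj]
    have := pairs' S hS (2 ^ d) (by positivity) ((Finset.Icc (3 * r) (4 * r - f)).biUnion
      (fun n => Finset.Ico (2 ^ (4 * (K * n) - d)) (2 ^ (4 * (K * n) + 4 * K - d))))
    refine this.trans (le_of_eq ?_)
    push_cast
    rfl
  have hN : (2:ℝ) ^ (4 * f + 11 + 2 * e) ≤ ((4 * r - f + 1 - 3 * r : ℕ) : ℝ) := by
    have h1 : r = 2 * 2 ^ (4 * f + 11 + 2 * e) := by rw [hr]; ring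
    have h2 : 4 * f + 11 + 2 * e < 2 ^ (4 * f + 11 + 2 * e) := Nat.lt_two_pow_self
    have h3 : 2 ^ (4 * f + 11 + 2 * e) ≤ 4 * r - f + 1 - 3 * r := by omega
    exact_mod_cast h3
  have hfin : (2:ℝ) ^ (4 * f + 11 + 2 * e) * 2 ^ (d - 4 * f - 2 * e - 9) ≤ 2 * 2 ^ d :=
    (mul_le_mul_of_nonneg_right hN (by positivity)).trans (hsum.trans hbi)
  rw [← pow_add, ← pow_succ'] at hfin
  have h3 := (pow_le_pow_iff_right₀ (by norm_num : (1:ℝ) < 2)).1 hfin
  omega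

end Pool.Agent.L5helper39.SB
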